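import Mathlib
import Pool.Agent.Helper86K9.JT.Final

/-!
# The pairs of linear Jordan types of graded complete intersections of codimension two

`K` is an algebraically closed field (of any characteristic), `R = K[x, y]`.

The statement uses the following definitions of the helper files.

* `Pool.Agent.R686.JT.IsJordanType k f P`: there is a basis of the space made of strings
  `b (i, 0), ..., b (i, p i - 1)`, `p i ≥ 1`, with `f (b (i, a)) = b (i, a + 1)` and
  `f (b (i, p i - 1)) = 0`, and `P` is the multiset of the lengths `p i`, that is, `f` is nilpotent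
  and `P` is the partition formed by the sizes of its Jordan blocks.
* `Pool.Agent.Helper86K9.JT.hilb I i`: the dimension of the image of the space of forms of degree
  `i` in `K[x, y] / I`.
* `Pool.Agent.Helper86K9.JT.HF a b i`: `i + 1` if `i < a`, `a` if `a ≤ i < b`, `a + b - 1 - i`
  (and `0` if this is negative) otherwise.
* `Pool.Agent.Helper86K9.JT.parts n [d₀, d₁, ..., d_r]`: the multiset which contains, for each
  `i < r`, exactly `d_i - d_{i+1}` copies of `n - d_i - d_{i+1}`.
* `Pool.Agent.Helper86K9.JT.jordan a b S`: the multiset of the nonzero elements of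
  `parts (a + b) [b, s₁, ..., s_r, 0]`, where `s₁ > ... > s_r` are the elements of the set `S`.
-/

set_option autoImplicit false

open Module MvPolynomial
open Pool.Agent.R686.JT (IsJordanType)
open Pool.Agent.Helper86K9.JT (hilb HF jordan)

namespace Pool.Agent.Results.MP_3e4917_al.PairsOfJordanTypes

universe u

/-- `f` and `g` are homogeneous and form a regular sequence in `K[x, y]`, so that
`K[x, y] / (f, g)` is a graded complete intersection of codimension two. -/
def IsCompleteIntersection {K : Type u} [Field K] (f g : MvPolynomial (Fin 2) K) : Prop :=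
  (∃ p : ℕ, f.IsHomogeneous p) ∧ (∃ q : ℕ, g.IsHomogeneous q) ∧
    RingTheory.Sequence.IsRegular (MvPolynomial (Fin 2) K) [f, g]

/-- `P` is the Jordan type of the multiplication by the class of `l` on `K[x, y] / (f, g)`. -/
def HasJordanType {K : Type u} [Field K] (f g l : MvPolynomial (Fin 2) K) (P : Multiset ℕ) :
    Prop :=
  IsJordanType K (LinearMap.mulLeft K (Ideal.Quotient.mk (Ideal.span {f, g}) l)) P

/-- A set of integers between `1` and `a` which contains `a` if `a = b`. -/
def Admissible (a b : ℕ) (S : Finset ℕ) : Prop :=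
  (∀ i ∈ S, 1 ≤ i ∧ i ≤ a) ∧ (a = b → a ∈ S)

/-- `(P, Q)` occurs for the Hilbert function `H`: there are a graded complete intersection
`A = K[x, y] / (f, g)` of codimension two with Hilbert function `H` and linear forms `l₁`, `l₂`
whose Jordan types on `A` are `P` and `Q`. -/
def Occurs (K : Type u) [Field K] (H : ℕ → ℕ) (P Q : Multiset ℕ) : Prop :=
  ∃ f g : MvPolynomial (Fin 2) K, IsCompleteIntersection f g ∧
    (∀ i, hilb (Ideal.span {f, g}) i = H i) ∧
    ∃ l₁ l₂ : MvPolynomial (Fin 2) K, l₁.IsHomogeneous 1 ∧ l₂.IsHomogeneous 1 ∧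
      HasJordanType f g l₁ P ∧ HasJordanType f g l₂ Q

/-- The explicit set of pairs. -/
def Pairs (a b : ℕ) (P Q : Multiset ℕ) : Prop :=
  (∃ S T : Finset ℕ, Admissible a b S ∧ Admissible a b T ∧ P = jordan a b S ∧ Q = jordan a b T ∧
      (a < b → S = T ∨ a ≤ S.sup id + T.sup id)) ∨
    (P = Multiset.replicate (a * b) 1 ∧ ∃ T : Finset ℕ, Admissible a b T ∧ Q = jordan a b T) ∨
    (Q = Multiset.replicate (a * b) 1 ∧ ∃ S : Finset ℕ, Admissible a b S ∧ P = jordan a b S) ∨
    (P = Multiset.replicate (a * b) 1 ∧ Q = Multiset.replicate (a * b) 1)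

namespace Aux

open Pool.Agent.Helper86K9.JT

variable {K : Type u} [Field K]

/-- the degrees of a complete intersection -/
theorem exists_ci_of {f g : MvPolynomial (Fin 2) K} (h : IsCompleteIntersection f g) :
    ∃ (a b : ℕ) (f' g' : MvPolynomial (Fin 2) K), 1 ≤ a ∧ a ≤ b ∧ CI f' g' a b ∧
      Ideal.span {f, g} = Ideal.span {f', g'} := by
  obtain ⟨⟨p, hp⟩, ⟨q, hq⟩, hreg⟩ := h
  obtain ⟨hf0, hrel, htop⟩ := (isRegular_iff_pair f g).1 hreg
  have hunit : ∀ (f : MvPolynomial (Fin 2) K), f.IsHomogeneous 0 → f ≠ 0 → IsUnit f := by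
    intro f hf h0
    have h1 : f = C (coeff 0 f) := by
      ext m
      rw [coeff_C]
      split_ifs with h
      · rw [h]
      · by_contra h2
        apply h
        have := hom_iff.1 hf m h2
        apply fin2_ext
        · simp
          omega
        · simp
          omega
    have h2 : coeff 0 f ≠ 0 := by
      intro h
      rw [h, C_0] at h1
      exact h0 h1
    rw [h1]
    exact (isUnit_iff_ne_zero.2 h2).map C
  have hp1 : 1 ≤ p := by
    by_contra hcon
    have : p = 0 := by omega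
    subst this
    exact htop (Ideal.eq_top_of_isUnit_mem _ (Ideal.subset_span (Or.inl rfl)) (hunit f hp hf0))
  have hg0 : g ≠ 0 := by
    rintro rfl
    exact not_unit hp hp1 (isRelPrime_zero_right.1 hrel)
  have hq1 : 1 ≤ q := by
    by_contra hcon
    have : q = 0 := by omega
    subst this
    exact htop (Ideal.eq_top_of_isUnit_mem _ (Ideal.subset_span (Or.inr rfl)) (hunit g hq hg0))
  rcases Nat.le_total p q with h1 | h1
  · exact ⟨p, q, f, g, hp1, h1, ⟨hp, hq, hrel⟩, rfl⟩
  · exact ⟨q, p, g, f, hq1, h1, ⟨hq, hp, hrel.symm⟩, Ideal.span_pair_comm⟩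

theorem isCI_of {f g : MvPolynomial (Fin 2) K} {a b : ℕ} (ha : 1 ≤ a) (hab : a ≤ b)
    (h : CI f g a b) : IsCompleteIntersection f g :=
  ⟨⟨a, h.hf⟩, ⟨b, h.hg⟩, (isRegular_iff_pair f g).2
    ⟨h.ne_zero (by omega), h.cop, span_ne_top h.hf h.hg ha (by omega)⟩⟩

theorem admissible_pat {f g x : MvPolynomial (Fin 2) K} {a b : ℕ} (hab : a ≤ b) (hb : 1 ≤ b)
    (hci : CI f g a b) {φ : MvPolynomial (Fin 2) K ≃ₐ[K] MvPolynomial (Fin 2) K} (hφ : Gr φ)
    (hx : φ x = X 0) : Admissible a b (pat x (Ideal.span {f, g}) a (a + b)) :=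
  ⟨fun _ hi => (mem_pat.1 hi).1, (chain' hab hb hci hφ hx).2.2.1⟩

theorem exists_phi {a b : K} (h : ¬ (a = 0 ∧ b = 0)) :
    ∃ φ : MvPolynomial (Fin 2) K ≃ₐ[K] MvPolynomial (Fin 2) K, Gr φ ∧
      φ (C a * X 0 + C b * X 1) = X 0 := by
  by_cases ha : a = 0
  · have hb : b ≠ 0 := fun hb => h ⟨ha, hb⟩
    obtain ⟨φ, h1, h2, -⟩ := exists_aut a b 1 0 (by simpa using hb)
    exact ⟨φ, h1, h2⟩
  · obtain ⟨φ, h1, h2, -⟩ := exists_aut a b 0 1 (by simpa using ha)
    exact ⟨φ, h1, h2⟩

theorem sup_dvd {f g x : MvPolynomial (Fin 2) K} {a b : ℕ} (hab : a < b) 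
    (hci : CI f g a b) {φ : MvPolynomial (Fin 2) K ≃ₐ[K] MvPolynomial (Fin 2) K} (hφ : Gr φ)
    (hx : φ x = X 0) : x ^ (a - (pat x (Ideal.span {f, g}) a (a + b)).sup id) ∣ f := by
  refine (chain' hab.le (by omega) hci hφ hx).2.2.2 hab _ ?_ ?_
  · exact Finset.sup_le fun i hi => (mem_pat.1 hi).1.2
  · intro i hi
    exact Finset.le_sup (f := id) hi

theorem necessity {f g : MvPolynomial (Fin 2) K} {a b : ℕ} (ha : 1 ≤ a) (hab : a ≤ b)
    (hci : CI f g a b) {l₁ l₂ : MvPolynomial (Fin 2) K} (h₁ : l₁.IsHomogeneous 1)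
    (h₂ : l₂.IsHomogeneous 1) {P Q : Multiset ℕ}
    (hP : IsJordanType K (mulQ (Ideal.span {f, g}) l₁) P)
    (hQ : IsJordanType K (mulQ (Ideal.span {f, g}) l₂) Q) : Pairs a b P Q := by
  obtain ⟨a₁, b₁, rfl⟩ := lin_exists h₁
  obtain ⟨a₂, b₂, rfl⟩ := lin_exists h₂
  have hfin := (chain (a + b) a b f g rfl hab (by omega) hci).1
  have hzero : ∀ P, IsJordanType K (mulQ (Ideal.span {f, g}) 0) P →
      P = Multiset.replicate (a * b) 1 := by
    intro P hP
    rw [mulQ_zero, jt_zero, finrank_ci hab (by omega) hci] at hP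
    exact hP
  have hz : (C (0 : K) * X 0 + C (0 : K) * X 1 : MvPolynomial (Fin 2) K) = 0 := by simp
  by_cases c1 : a₁ = 0 ∧ b₁ = 0
  · rw [c1.1, c1.2, hz] at hP
    by_cases c2 : a₂ = 0 ∧ b₂ = 0
    · rw [c2.1, c2.2, hz] at hQ
      exact Or.inr (Or.inr (Or.inr ⟨hzero _ hP, hzero _ hQ⟩))
    · obtain ⟨φ, hφ, hx⟩ := exists_phi c2
      exact Or.inr (Or.inl ⟨hzero _ hP, _, admissible_pat hab (by omega) hci hφ hx,
        (eq_jordan hab (by omega) hci hφ hx).1 hQ⟩)
  · obtain ⟨φ₁, hφ₁, hx₁⟩ := exists_phi c1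
    by_cases c2 : a₂ = 0 ∧ b₂ = 0
    · rw [c2.1, c2.2, hz] at hQ
      exact Or.inr (Or.inr (Or.inl ⟨hzero _ hQ, _, admissible_pat hab (by omega) hci hφ₁ hx₁,
        (eq_jordan hab (by omega) hci hφ₁ hx₁).1 hP⟩))
    · obtain ⟨φ₂, hφ₂, hx₂⟩ := exists_phi c2
      refine Or.inl ⟨_, _, admissible_pat hab (by omega) hci hφ₁ hx₁,
        admissible_pat hab (by omega) hci hφ₂ hx₂,
        (eq_jordan hab (by omega) hci hφ₁ hx₁).1 hP,
        (eq_jordan hab (by omega) hci hφ₂ hx₂).1 hQ, fun hlt => ?_⟩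
      by_cases hdet : a₁ * b₂ - b₁ * a₂ = 0
      · left
        obtain ⟨r, hr, e1, e2⟩ : ∃ r : K, r ≠ 0 ∧ a₂ = r * a₁ ∧ b₂ = r * b₁ := by
          by_cases h0 : a₁ = 0
          · have hb : b₁ ≠ 0 := fun hb => c1 ⟨h0, hb⟩
            have ha2 : a₂ = 0 := by
              rw [h0, zero_mul, zero_sub, neg_eq_zero] at hdet
              exact (mul_eq_zero.1 hdet).resolve_left hb
            have hb2 : b₂ ≠ 0 := fun hb => c2 ⟨ha2, hb⟩
            exact ⟨b₂ / b₁, div_ne_zero hb2 hb, by rw [h0, ha2, mul_zero],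
              by field_simp⟩
          · have ha2 : a₂ ≠ 0 := by
              intro h1
              rw [h1, mul_zero, sub_zero] at hdet
              exact c2 ⟨h1, (mul_eq_zero.1 hdet).resolve_left h0⟩
            refine ⟨a₂ / a₁, div_ne_zero ha2 h0, by field_simp, ?_⟩
            field_simp
            linear_combination hdet
        have e3 : (C a₂ * X 0 + C b₂ * X 1 : MvPolynomial (Fin 2) K) =
            C r * (C a₁ * X 0 + C b₁ * X 1) := by
          rw [e1, e2, C_mul, C_mul]
          ring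
        rw [e3, pat_smul hr]
      · right
        have d1 := sup_dvd hlt hci hφ₁ hx₁
        have d2 := sup_dvd hlt hci hφ₂ hx₂
        obtain ⟨φ, hφ, hy₁, hy₂⟩ := exists_aut a₁ b₁ a₂ b₂ hdet
        have d1' := map_dvd φ d1
        have d2' := map_dvd φ d2
        rw [map_pow, hy₁] at d1'
        rw [map_pow, hy₂] at d2'
        have h0 : φ f ≠ 0 := by
          intro h
          apply hci.ne_zero (by omega)
          apply φ.injective
          rw [h, map_zero]
        have := deg_le (hφ.hom _ _ hci.hf) h0 ((coprime_pow _ _).mul_dvd d1' d2')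
        omega

theorem sup_mem {S : Finset ℕ} (h : 0 < S.sup id) : S.sup id ∈ S := by
  have hne : S.Nonempty := by
    rw [Finset.nonempty_iff_ne_empty]
    rintro rfl
    simp at h
  obtain ⟨i, hi, h1⟩ := Finset.exists_mem_eq_sup S hne id
  rw [h1]
  exact hi

theorem construct [IsAlgClosed K] {a b : ℕ} (ha : 1 ≤ a) (hab : a ≤ b) {S T : Finset ℕ}
    (hS : Admissible a b S) (hT : Admissible a b T) (hST : a < b → a ≤ S.sup id + T.sup id) :
    ∃ f g : MvPolynomial (Fin 2) K, IsCompleteIntersection f g ∧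
      (∀ i, hilb (Ideal.span {f, g}) i = HF a b i) ∧
      Module.Finite K (MvPolynomial (Fin 2) K ⧸ Ideal.span {f, g}) ∧
      finrank K (MvPolynomial (Fin 2) K ⧸ Ideal.span {f, g}) = a * b ∧
      HasJordanType f g (X 0) (jordan a b S) ∧ HasJordanType f g (X 1) (jordan a b T) := by
  have hsup : ∀ S, Admissible a b S → S.sup id ≤ a := fun S hS =>
    Finset.sup_le fun i hi => (hS.1 i hi).2
  have hsupa : ∀ S, Admissible a b S → a = b → S.sup id = a := fun S hS h =>
    le_antisymm (hsup S hS) (Finset.le_sup (f := id) (hS.2 h))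
  have hST' : a ≤ S.sup id + T.sup id := by
    rcases lt_or_eq_of_le hab with h | h
    · exact hST h
    · rw [hsupa S hS h]
      omega
  obtain ⟨f, g, hci, h1, h2⟩ := exists_ci (K := K) (S := S) (T := T) ha hab
    (fun i hi => ⟨(hS.1 i hi).1, Finset.le_sup (f := id) hi⟩)
    (fun i hi => ⟨(hT.1 i hi).1, Finset.le_sup (f := id) hi⟩) sup_mem sup_mem
    (hsup S hS) (hsup T hT) hST' (fun h => ⟨hsupa S hS h, hsupa T hT h⟩)
  obtain ⟨φ, hφ, hx⟩ := exists_id (K := K)
  obtain ⟨φ', hφ', hx'⟩ := exists_swap (K := K)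
  refine ⟨f, g, isCI_of ha hab hci, hilb_ci (a + b) a b f g rfl hab (by omega) hci,
    (chain (a + b) a b f g rfl hab (by omega) hci).1, finrank_ci hab (by omega) hci, ?_, ?_⟩
  · exact (eq_jordan hab (by omega) hci hφ hx).2 (by rw [h1])
  · exact (eq_jordan hab (by omega) hci hφ' hx').2 (by rw [h2])

theorem admissible_Icc {a b : ℕ} (ha : 1 ≤ a) : Admissible a b (Finset.Icc 1 a) :=
  ⟨fun _ hi => Finset.mem_Icc.1 hi, fun _ => Finset.mem_Icc.2 ⟨ha, le_rfl⟩⟩

theorem sup_Icc {a : ℕ} (ha : 1 ≤ a) : a ≤ (Finset.Icc 1 a).sup id :=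
  Finset.le_sup (f := id) (Finset.mem_Icc.2 ⟨ha, le_rfl⟩)

theorem zero_type {f g : MvPolynomial (Fin 2) K} {n : ℕ}
    (hfin : Module.Finite K (MvPolynomial (Fin 2) K ⧸ Ideal.span {f, g}))
    (hn : finrank K (MvPolynomial (Fin 2) K ⧸ Ideal.span {f, g}) = n) :
    HasJordanType f g 0 (Multiset.replicate n 1) := by
  change IsJordanType K (mulQ (Ideal.span {f, g}) 0) _
  rw [mulQ_zero, jt_zero, hn]

theorem main [IsAlgClosed K] (a b : ℕ) (ha : 1 ≤ a) (hab : a ≤ b) (P Q : Multiset ℕ) :
    Occurs K (HF a b) P Q ↔ Pairs a b P Q := by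
  constructor
  · rintro ⟨f, g, hfg, hH, l₁, l₂, h₁, h₂, hP, hQ⟩
    obtain ⟨a', b', f', g', ha', hab', hci, hspan⟩ := exists_ci_of hfg
    have h3 : ∀ i, HF a' b' i = HF a b i := by
      intro i
      rw [← hH i, hspan, hilb_ci (a' + b') a' b' f' g' rfl hab' (by omega) hci]
    obtain ⟨rfl, rfl⟩ := HF_inj ha' hab' ha hab h3
    have hP' : IsJordanType K (mulQ (Ideal.span {f, g}) l₁) P := hP
    have hQ' : IsJordanType K (mulQ (Ideal.span {f, g}) l₂) Q := hQ
    rw [hspan] at hP' hQ'
    exact necessity ha hab hci h₁ h₂ hP' hQ'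
  · rintro (⟨S, T, hS, hT, rfl, rfl, hST⟩ | ⟨rfl, T, hT, rfl⟩ | ⟨rfl, S, hS, rfl⟩ | ⟨rfl, rfl⟩)
    · by_cases h : a < b → a ≤ S.sup id + T.sup id
      · obtain ⟨f, g, h1, h2, -, -, h3, h4⟩ := construct (K := K) ha hab hS hT h
        exact ⟨f, g, h1, h2, X 0, X 1, isHomogeneous_X _ _, isHomogeneous_X _ _, h3, h4⟩
      · have hlt : a < b := by
          by_contra hcon
          exact h fun h' => absurd h' hcon
        have hne : ¬ a ≤ S.sup id + T.sup id := fun h' => h fun _ => h'
        have heq : S = T := (hST hlt).resolve_right hne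
        subst heq
        obtain ⟨f, g, h1, h2, -, -, h3, -⟩ := construct (K := K) ha hab hS (admissible_Icc ha)
          (fun _ => (sup_Icc ha).trans (Nat.le_add_left _ _))
        exact ⟨f, g, h1, h2, X 0, X 0, isHomogeneous_X _ _, isHomogeneous_X _ _, h3, h3⟩
    · obtain ⟨f, g, h1, h2, h5, h6, h3, -⟩ := construct (K := K) ha hab hT (admissible_Icc ha)
          (fun _ => (sup_Icc ha).trans (Nat.le_add_left _ _))
      exact ⟨f, g, h1, h2, 0, X 0, isHomogeneous_zero _ _ _, isHomogeneous_X _ _,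
        zero_type h5 h6, h3⟩
    · obtain ⟨f, g, h1, h2, h5, h6, h3, -⟩ := construct (K := K) ha hab hS (admissible_Icc ha)
          (fun _ => (sup_Icc ha).trans (Nat.le_add_left _ _))
      exact ⟨f, g, h1, h2, X 0, 0, isHomogeneous_X _ _, isHomogeneous_zero _ _ _, h3,
        zero_type h5 h6⟩
    · obtain ⟨f, g, h1, h2, h5, h6, -, -⟩ := construct (K := K) ha hab (admissible_Icc ha)
          (admissible_Icc ha) (fun _ => (sup_Icc ha).trans (Nat.le_add_left _ _))
      exact ⟨f, g, h1, h2, 0, 0, isHomogeneous_zero _ _ _, isHomogeneous_zero _ _ _,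
        zero_type h5 h6, zero_type h5 h6⟩

end Aux

/-- Let `K` be an algebraically closed field and let `H` be the Hilbert function of a graded
complete intersection of codimension two over `K`. Then `H` is the function `HF a b` for some
integers `1 ≤ a ≤ b` (these are the degrees of the generators), and a pair `(P, Q)` is the pair of
the Jordan types of two linear forms on one graded complete intersection of codimension two with
Hilbert function `H` if and only if `Pairs a b P Q`: either `P = jordan a b S` and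
`Q = jordan a b T` for two sets `S`, `T` of integers between `1` and `a` such that `a ∈ S ∩ T` if
`a = b` and such that `S = T` or `max S + max T ≥ a` if `a < b` (with `max ∅ = 0`), or one of `P`,
`Q` is the partition `(1, ..., 1)` of `a * b` and the other one is again this partition or is
`jordan a b S` for such a set `S`. -/
theorem result (K : Type u) [Field K] [IsAlgClosed K] (H : ℕ → ℕ)
    (hH : ∃ f g : MvPolynomial (Fin 2) K, IsCompleteIntersection f g ∧
      ∀ i, hilb (Ideal.span {f, g}) i = H i) :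
    ∃ a b : ℕ, 1 ≤ a ∧ a ≤ b ∧ (∀ i, H i = HF a b i) ∧
      ∀ P Q : Multiset ℕ, Occurs K H P Q ↔ Pairs a b P Q := by
  obtain ⟨f, g, hfg, hH⟩ := hH
  obtain ⟨a, b, f', g', ha, hab, hci, hspan⟩ := Aux.exists_ci_of hfg
  have h1 : ∀ i, H i = HF a b i := by
    intro i
    rw [← hH, hspan, Pool.Agent.Helper86K9.JT.hilb_ci (a + b) a b f' g' rfl hab (by omega) hci]
  have h2 : H = HF a b := funext h1
  refine ⟨a, b, ha, hab, h1, fun P Q => ?_⟩
  rw [h2]
  exact Aux.main a b ha hab P Q

end Pool.Agent.Results.MP_3e4917_al.PairsOfJordanTypes
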